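import Pool.Agent.U739.IS.ZMain3

set_option autoImplicit false

/-! # The monodromy conjecture for the twisted topological zeta functions of powers of forms with
isolated weighted homogeneous singularities in the projective space

Let `F` be a form of degree `d > 0` in `m + 1` variables, such that the hypersurface `F = 0` in `P^m` has
only isolated weighted homogeneous singularities, and let `f = F ^ a`, `a ≥ 1`. The formula for the
twisted topological zeta functions is explained in `Pool.Agent.U739.IS.ZDefs3`. The main point is that
`-(m+1)/(a d)` is a root of the Bernstein-Sato polynomial of `F ^ a`, if there is no linear vector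
field `v` with `v(F) = 0` and nonzero trace; see `Pool.Agent.U739.IS.Core` (the proof is in the files
`Core`, `Gl`, `Kg`, `Loc`). If there is such a vector field, then `F` is weighted homogeneous also with
respect to other weights, in suitable linear coordinates (`Pool.Agent.U739.IS.Exc`), and `-(m+1)/(a d)`
is not a pole, unless it is one of the other candidate poles, which are roots. -/

namespace Pool.Agent.Results.MP_b22d1f_ag.IsolatedCones

open MvPolynomial Pool.Agent.U739.IS Pool.Agent.H628R4.TP

/-- **The twisted monodromy conjecture, in the strong form, for powers of forms in `m + 1` variables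
with isolated weighted homogeneous singularities.** Let `F` be a form of degree `d > 0` in `m + 1`
variables, such that `F = 0` has only isolated weighted homogeneous singularities in `P^m`, in
coordinates such that the section by `x_0 = 0` is smooth (`IsoForm F d`), let `f = F ^ a`, `a ≥ 1`, let `b` be
a polynomial which satisfies a functional equation `b(s) f ^ s = P(s) f ^ (s + 1)` (in particular the
Bernstein-Sato polynomial of `f`), and let `Z` be the `e`-th twisted topological zeta function of `f` on
`ℂ ^ (m + 1)` or on an open set of `ℂ ^ (m + 1)` (`TwIso e F a Z`). Then every pole `s₀` of `Z` is a root of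
`b`. By the theorem of Malgrange and Kashiwara, `exp(2 π i s₀)` is then an eigenvalue of the monodromy
of `f` at some point. -/
theorem result {m : ℕ} (F : MvPolynomial (Fin (m + 1)) ℂ) (d a : ℕ) (hF : IsoForm F d)
    (ha : 1 ≤ a) (b : Polynomial ℂ) (hb : IsBFunction (F ^ a) b) (e : ℕ) (Z : RatFunc ℂ)
    (hZ : TwIso e F a Z) (s₀ : ℂ) (hs₀ : Z.denom.eval s₀ = 0) : b.eval s₀ = 0 :=
  tw_full hF a ha b hb e Z hZ s₀ hs₀

end Pool.Agent.Results.MP_b22d1f_ag.IsolatedCones
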