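import Pool.Agent.U397.TM.TwF

set_option autoImplicit false

/-! # The twisted topological zeta functions of forms over products of generic matrices

Let `n_0 ≤ n_1 ≤ ⋯` be positive integers, `A_i`, `i < L`, generic matrices of the sizes
`n_i × n_{i+1}` (all entries are different variables, `Var n L`), and for `t < T` let `ℓ_t < L` and
`F_t = ∑_{r,c} y_{t,r,c} (A_0 A_1 ⋯ A_{ℓ_t})_{r,c}`, with further variables `y_{t,r,c}`, separate for
each `t`. Let `f = ∏ t, F_t ^ a_t`, `a_t ≥ 1`, `T > 0` (`form`, with integral coefficients). For `T = 1`, `a = 1`, `ℓ = L - 1` this is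
`tr (Y A_0 A_1 ⋯ A_{L-1})`, `Y` a generic `n_L × n_0` matrix: the trace of a product of generic
matrices.

The twisted topological zeta function `Z^(e)` is taken from the spaces of jets, as Denef and Loeser do
in their paper on motivic Igusa zeta functions (1998). For a character `α` of order `e` of the group of
the roots of unity they form the series of the `α`-parts of the classes of the covers
`U_{d,k} = {(φ, w) | f(φ) = w ^ k t ^ d mod t ^ (d + 1), w ≠ 0}` (`JetC`), `e ∣ k`, of the sets of the
`d`-jets on which `f` has the order `d`; its Euler characteristic at `T = 𝕃 ^ (-s)` is `Z^(e)(s)`. The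
class of `U_{d,k}` is the sum of its parts over all characters with `α ^ k = 1`, so the topological
zeta function `Y_k` of the series `∑_{d ≥ 1} [U_{d,k}] 𝕃 ^ (-m d) T ^ d` (`zetaC`), `m` the number of the
variables, is `∑_{e ∣ k} φ(e) Z^(e)`. In terms of a resolution: the cover over the stratum `E_I°`
contributes `gcd(k, m_I) χ(E_I°) ∏_{i ∈ I} 1 / (N_i s + ν_i)`, and
`gcd(k, m_I) = ∑_{e ∣ k, e ∣ m_I} φ(e)`. So `Z^(e)` is defined by
`φ(e) Z^(e) = ∑_{i k = e} μ(i) Y_k` (`IsTwistedTop`). The topological zeta function of a series is its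
value at `T = 𝕃 ^ (-s)` under a homomorphism `E` from the Grothendieck ring `𝓜` to a domain `R` with
`E(𝕃) ≠ 1`, such as the Hodge-Deligne polynomial, and then a homomorphism `ε` from `R` to `ℂ` with
`ε(E(𝕃)) = 1`, such as `u, v ↦ 1` (`IsTopZeta`).

No resolution is used. The jets are divided by the orders of the ideals of the entries of the
products; their recursion (`Tw3`, `t_ST3`, `t_RF`) uses as state the levels of the rows (the row `ρ` of
the first factor which does not yet have a unit) and the columns which are left; only the entries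
of the rows at their levels (heads) are divided by `t`; if a head is a unit, a shear which depends
also on entries of the next matrix moves its row to the next level. Let `g` be the greatest common divisor of
the `a_t`. Then `f = F ^ g`, and `F` is homogeneous of degree one for a one-parameter group which
scales the `y_{t,r,c}`, so `[U_{d,k}] = gcd(k, g) [U_{d,1}]`. The candidate poles are the
`-ν(c) / N(c)` and `-1 / a_t`; `c` runs over the chains `n_0 = c_0 ≥ c_1 ≥ ⋯ ≥ c_L` of possible ranks `c_{i+1}` of `A_0 ⋯ A_i` with some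
`c_{ℓ_t+1} = 0`, `ν(c) = ∑_i (c_i - c_{i+1}) (n_{i+1} - c_{i+1})` is the codimension of the stratum
and `N(c)` the sum of the `a_t` with `c_{ℓ_t+1} = 0` (`formPr`). The roots come from blow-ups of the
strata (`t_RO`). -/

namespace Pool.Agent.Results.MP_b22d1f_ag.MatrixProductTwisted

open MvPolynomial Pool.Agent.W428.MOT Pool.Agent.H628R4.TP Pool.Agent.TH192.DT
  Pool.Agent.TH192.MT Pool.Agent.TH192.MU Pool.Agent.U397.TM

/-- **The twisted monodromy conjecture holds for `f = ∏ t, F_t ^ a t`**, `F_t` the form with the entries of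
the product `A_0 ⋯ A_{ℓ t}` of generic matrices as coefficients. For every `e ≥ 1` there is exactly one
twisted topological zeta function `Z` of `f`. If `e` divides all the `a t`, it is the topological zeta
function of `∑_{d ≥ 1} [U_{d,1}] 𝕃 ^ (-m d) T ^ d`, that is the one for `e = 1`, and otherwise it is `0`.
Every pole `s₀` is one of the `-ν(c) / N(c)` and `-1 / a t`, `e` divides `N(c)` (`a t`), and `s₀` is a root
of every polynomial `b'` with `b'(s) f ^ s = P(s) f ^ (s + 1)`, `P(s)` in the Weyl algebra, in particular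
of the Bernstein-Sato polynomial of `f`. By the theorem of Malgrange and Kashiwara, `exp(2 π i s₀)` is
then an eigenvalue of the monodromy of `f` at some point. -/
theorem result (n : ℕ → ℕ) (L T : ℕ) (ℓ a : Fin T → ℕ) (h0 : 0 < n 0) (hn : Monotone n)
    (hT : 0 < T) (hℓ : ∀ t, ℓ t < L) (ha : ∀ t, 0 < a t) (e : ℕ) (he : 0 < e)
    (R : Type) [CommRing R] [IsDomain R] (E : MK ℂ →+* R) (ε : R →+* ℂ)
    (hε : ε (E ((Lu ℂ : (MK ℂ)ˣ) : MK ℂ)) = 1) (hE : E ((Lu ℂ : (MK ℂ)ˣ) : MK ℂ) ≠ 1) :
    ∃ Z : RatFunc ℂ, IsTwistedTop E ε (map (Int.castRingHom ℂ) (form n L ℓ a)) e Z ∧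
      (∀ Z', IsTwistedTop E ε (map (Int.castRingHom ℂ) (form n L ℓ a)) e Z' → Z' = Z) ∧
      ((∀ t, e ∣ a t) → IsTopZeta E ε (zetaC (map (Int.castRingHom ℂ) (form n L ℓ a)) 1) Z) ∧
      ((∃ t, ¬ e ∣ a t) → Z = 0) ∧
      ∀ s₀ : ℂ, Z.denom.eval s₀ = 0 →
        (∃ q ∈ formPr n L ℓ a, (e : ℤ) ∣ q.2 ∧ s₀ = (q.1 : ℂ) / q.2) ∧
        ∀ b' : Polynomial ℂ, IsBFunction (map (Int.castRingHom ℂ) (form n L ℓ a)) b' →
          b'.eval s₀ = 0 := by
  obtain ⟨Z, h1, h2, h3, h4, h5⟩ := twisted_form h0 hn L hT ℓ a hℓ ha e he E ε hε hE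
  refine ⟨Z, h1, h2, h3, h4, fun s₀ hs => ?_⟩
  obtain ⟨h6, q, hq, rfl⟩ := h5 s₀ hs
  exact ⟨⟨q, hq, dvd_formPr n L ℓ a e h6 q hq, rfl⟩, (t_FR n L T ℓ a h0 hn hℓ ha q hq).2.2.1⟩

end Pool.Agent.Results.MP_b22d1f_ag.MatrixProductTwisted
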