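import Pool.Agent.U184.NT

set_option autoImplicit false

/-! # The twisted monodromy conjecture for hypersurfaces whose tangent cones have normal crossings

Let `f t`, `t ∈ T`, be finitely many polynomials in `n ≥ 2` variables such that at every point `p ∈ ℂ ^ n` the
tangent cones of those hypersurfaces `f t = 0` which contain `p` are smooth away from the vertex and
cross normally there (`ConesCrossAt f p`). The `f t` may be reducible, and the singularities of the
products of their powers are in general neither isolated nor reduced nor homogeneous. Examples: the
cones over the normal crossing divisors of `ℙ^(n-1)` and all perturbations of their equations by terms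
of higher order, with all multiplicities; hypersurfaces with ordinary multiple points.

Let `S` be the set of the points at which the hypersurfaces `f t = 0` do not cross normally
(`CrossAt`); it is finite. The blow-up of the points of `S` is an embedded resolution. The
components are the exceptional divisors over the points `p ∈ S`, with `ν = n`, and the strict
transforms of the hypersurfaces `f t = 0`, with `ν = 1`.

Let `a t ≥ 1` be arbitrary exponents and `F = ∏ t, f t ^ a t`. The multiplicities `N` of `F` are the
multiplicity of `F` at `p` along the exceptional divisor over `p`, and `a t` along the strict transform of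
`f t = 0`. For every `e`, all the poles of the `e`-th twisted topological zeta function of `F` are roots of
the Bernstein-Sato polynomial of `F`; by the theorem of Malgrange and Kashiwara, `exp(2 π i s₀)` is a
monodromy eigenvalue for every pole `s₀`.

The roots are in the library `Pool/Agent/U841/SN` (helper841): `pt_exc` says that `-n/d` is a root of the
local Bernstein-Sato polynomial of `∏ t, f t ^ a t` at `p`, where `d` is its multiplicity at `p`, if the
hypersurfaces do not cross normally at `p`, for all exponents `a t ≥ 1`. See the files
`NormalCrossingTangentCones` of MP_504089_ag and MP_b07157_ag. This file draws the consequences for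
the zeta functions of this problem. -/

namespace Pool.Agent.Results.MP_b22d1f_ag.NormalCrossingTangentCones

open MvPolynomial Pool.Agent.H628R4.TP Pool.Agent.TH192.DT Pool.Agent.U841.SN

/-- **The twisted monodromy conjecture (with roots of the Bernstein-Sato polynomial) for products of
powers of polynomials whose tangent cones have normal crossings.** Let `b` satisfy
`b(s) F ^ s = P(s) F ^ (s + 1)` with `P(s)` in the Weyl algebra (for example the Bernstein-Sato polynomial
of `F = ∏ t, f t ^ a t`). For every `e`, every pole `s₀` of the twisted topological zeta function
`Z^(e)` of `F` (computed on the resolution by the blow-up of the points of `S`, with arbitrary integers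
in the place of the Euler characteristics of the strata) is a root of `b`. -/
theorem result {n : ℕ} {T : Type} [Fintype T] (hn : 2 ≤ n) (f : T → MvPolynomial (Fin n) ℂ)
    (hu : ∀ t, ¬ IsUnit (f t)) (hcone : ∀ p, ConesCrossAt f p) (S : Finset (Fin n → ℂ))
    (hS : ∀ p, p ∈ S ↔ ¬ CrossAt f p) (a : T → ℕ) (ha : ∀ t, 0 < a t)
    (b : Polynomial ℂ) (hb : IsBFunction (prodPow f a) b) (e : ℕ)
    (χ : Finset (S ⊕ T) → ℤ) (s₀ : ℂ)
    (hs : (twZ e (nuS n S T) (mulS S f a) χ).denom.eval s₀ = 0) : b.eval s₀ = 0 :=
  Pool.Agent.U184.nt_twisted hn f hu hcone S (fun p hp => (hS p).1 hp) a ha b hb e χ s₀ hs

end Pool.Agent.Results.MP_b22d1f_ag.NormalCrossingTangentCones
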