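import Pool.Agent.U184.Tw3

set_option autoImplicit false

/-! # Twisted topological zeta functions of homogeneous polynomials in three variables with weighted
homogeneous singularities

Let `f ≠ 0` be a homogeneous polynomial of degree `d > 0` in three variables, which may be reducible
and non-reduced. The candidate poles of its zeta function come from the divisors over the points of
the plane projective curve `f = 0`, and from the exceptional divisor `P²` of the blow-up of the
origin, which gives the candidate `-3/d`. This file treats all poles `s₀ ≠` `-3/d`, and also `-3/d`, if
the curve `f = 0` has only weighted homogeneous singularities: at each singular point of the reduced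
curve, `f` is, in suitable formal coordinates, a weighted homogeneous polynomial (`WHForm`). For
instance `f = ∏ f_i ^ (m_i)` with arbitrary multiplicities `m_i`, where the reduced curve
`∏ f_i = 0` has only simple singularities, ordinary multiple points of multiplicity at most 4,
or other quasi-homogeneous singularities. There is no other condition: this file contains the
theorem `TernaryForms` (where the forms `f` such that `v(f) = f` for a linear vector field `v` of
trace zero were excluded for the value `-3/d`).

The proof for the value `-3/d` distinguishes two cases.

* There is no linear vector field `v` of trace zero with `v(f) = f` (`NoField`). Then `-3/d` is a root of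
  `b` (`root_d3`): if `b(-3/d) ≠ 0` and the singularities are weighted homogeneous, then there is such
  a vector field `v` (`core` in `Pool.Agent.U184.Core`). The functional equation shows that on the
  complement of the curve the twisted form `f ^ (-3/d) (x dy dz - y dx dz + z dx dy)` is the
  differential of a form with poles of some order along the curve. The order of the poles is
  lowered step by step. Locally at a weighted homogeneous singularity this is a computation with
  the Euler vector field; the functional equation at the points of the curve is used in order to
  treat the degrees in which the twisted Euler field has no inverse; the global step uses the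
  exactness of the Koszul complex of `x, y, z`. At the end there is a form with poles of order one,
  which is given by a linear vector field `v` with `v(f) = f` and trace zero.
* There is such a vector field. Then `-3/d` need not be a root of `b` (for example `f = x^a y^b z^c`, or
  `f = x^5 + y^4 z`). We show that it is not a pole of `Z`, unless it is a root of `b` (`field_regT`).
  By the Jordan decomposition of `v`, there are linear coordinates in which `f` is semi-invariant, with
  a nontrivial character, for a diagonal torus in `SL₃`, and then, after a permutation of the
  variables (`torus_shape`),
  `f = κ x^a y^b z^c ∏_t (x^p y^q - t z^(p+q))^(m_t)`, with `p, q ≥ 1` coprime or `(p, q) = (0, 1)`.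
  The part of `Z` which comes from the exceptional divisor `P ^ 2` is `[e ∣ d] W/(d s + 3)`, and by the
  localization formula, which is a part of the definition of the twisted topological zeta function
  `TernTwFull` used here, `W = z₀ + z₁ + z₂` if `p, q ≥ 1`, where the `z_i` are the contributions of the
  coordinate points. The contributions of the germs `κ u^i v^j ∏_t (u^p - t v^r)^(m_t)` are computed
  by induction on `p + r` (`lf_main`, the value is `VT`); they do not depend on the sequence of
  blow-ups (`LocF.unique`). An identity (`val_isoT`) then shows that
  `W/(d s + 3) = ((p+q) z₀ + p z₂)/(ν + N s)` if `e ∣ d`, where `ν = 2p + q`,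
  `N = (p+q) a + p c + p (p+q) ∑ m_t`, and `-ν/N ≠ -3/d` since the character is not trivial. If
  `b(-3/d) ≠ 0`, then `z₀` and `z₂` are regular at `-3/d` by the results on plane curves of the library,
  so that `Z` is regular. In the same way `W facT e d 3 = z₀ facT e a 1` if `(p, q) = (0, 1)`
  (`line_regT`).

The contributions of the points of the plane to the `e`-th twisted topological zeta function are
treated with the library (`germ_regA`): if `b(s₀) ≠ 0`, and `E` is an exceptional curve of the
resolution with `N_E s₀ + ν_E = 0`, then `E` meets at most two other components, and the
contributions of the strata of `E` have together no pole at `s₀`, for every `e`. -/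

namespace Pool.Agent.Results.MP_b22d1f_ag.TernaryFormsComplete

open MvPolynomial Pool.Agent.U184 Pool.Agent.H628R4.TP

/-- **The twisted monodromy conjecture, in the strong form, for forms in three variables with
weighted homogeneous singularities.** Let `f ≠ 0` be a homogeneous polynomial of degree `d > 0` in
three variables, let `b` be a polynomial which satisfies a functional equation
`b(s) f ^ s = P(s) f ^ (s + 1)` (in particular the Bernstein-Sato polynomial of `f`), let `e ≥ 1`, and
let `Z` be the `e`-th twisted topological zeta function of `f` on `ℂ ^ 3` or on an open set of `ℂ ^ 3`
(`TernTwFull e f d Z`). Then every pole `s₀` of `Z` is a root of `b`; if `s₀ = -3/d`, we assume here that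
the plane curve `f = 0` (possibly not reduced) has only weighted homogeneous singularities
(`WHForm f d`). By the theorem of Malgrange and Kashiwara, `exp(2 π i s₀)` is then an eigenvalue of the
monodromy of `f` at some point. -/
theorem result (f : MvPolynomial (Fin 3) ℂ) (d : ℕ) (hd : 0 < d) (hf : f.IsHomogeneous d)
    (hf0 : f ≠ 0) (b : Polynomial ℂ) (hb : IsBFunction f b) (e : ℕ) (he : 1 ≤ e) (Z : RatFunc ℂ)
    (hZ : TernTwFull e f d Z) (s₀ : ℂ) (hs₀ : Z.denom.eval s₀ = 0)
    (hc : s₀ ≠ -3 / d ∨ WHForm f d) : b.eval s₀ = 0 :=
  tw_full f d hd hf hf0 b hb e he Z hZ s₀ hs₀ hc

end Pool.Agent.Results.MP_b22d1f_ag.TernaryFormsComplete
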